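import Mathlib
import Pool.Agent.V11312.OddParts

set_option autoImplicit false

open Filter Topology

namespace Pool.Agent.Results.MP_fabcd1_nt.NotEventuallyPeriodic

open Pool.Agent.V11312.PartGF Pool.Agent.V11312.OddParts

open Classical in
/-- `p_S(a,m,n)`: the number of partitions of `n` with all parts in `S` whose number of parts is
congruent to `a` modulo `m` (for `0 ≤ a ≤ m - 1`). -/
noncomputable def pS (S : Set ℕ) (a m n : ℕ) : ℕ :=
  (Finset.univ.filter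
    (fun p : n.Partition => (∀ i ∈ p.parts, i ∈ S) ∧ p.parts.card % m = a)).card

/-- `a` is listed before (or equals) `b`: larger value of `p_S(·,m,n)` first, equal values with the
smaller index first. -/
def before (S : Set ℕ) (m n a b : ℕ) : Prop :=
  pS S b m n < pS S a m n ∨ (pS S a m n = pS S b m n ∧ a ≤ b)

open Classical in
/-- `u_n`: the indices `0, …, m-1` sorted by `before`. -/
noncomputable def u (S : Set ℕ) (m n : ℕ) : List ℕ :=
  (List.range m).insertionSort (before S m n)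

/-- The sequence `(u_n)` is eventually periodic. -/
def EventuallyPeriodic (S : Set ℕ) (m : ℕ) : Prop :=
  ∃ T N : ℕ, 1 ≤ T ∧ ∀ n, N ≤ n → u S m (n + T) = u S m n

/-- The class `𝓕` of polynomials: integer valued on `ℤ`, positive and increasing on `n ≥ n₀`, and
for every prime `p` there is an integer `x` with `p ∤ f(x)`. -/
def InF (f : Polynomial ℚ) : Prop :=
  (∀ n : ℤ, ∃ m : ℤ, f.eval (n : ℚ) = m) ∧
  (∃ n₀ : ℤ, ∀ n : ℤ, n₀ ≤ n → 0 < f.eval (n : ℚ) ∧ f.eval (n : ℚ) < f.eval ((n + 1 : ℤ) : ℚ)) ∧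
  (∀ p : ℕ, p.Prime → ∃ x m : ℤ, f.eval (x : ℚ) = m ∧ ¬ (p : ℤ) ∣ m)

/-- `S_f = {f(n) : n ≥ 1}`. -/
def Sf (f : Polynomial ℚ) : Set ℕ := {s | ∃ n : ℕ, 1 ≤ n ∧ (s : ℚ) = f.eval (n : ℚ)}

/-! ### The difference of two of the counts -/

theorem cz_eq (S : Set ℕ) {z : ℂ} (hz : z ^ 3 = 1) (n : ℕ) :
    cz S z n = (pS S 0 3 n : ℂ) + z * pS S 1 3 n + z ^ 2 * pS S 2 3 n := by
  classical
  have h1 : ∀ a : ℕ, (pS S a 3 n : ℂ) = ∑ p : n.Partition,
      if (∀ i ∈ p.parts, i ∈ S) ∧ p.parts.card % 3 = a then (1 : ℂ) else 0 := by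
    intro a
    unfold pS
    rw [Finset.card_filter]
    push_cast
    apply Finset.sum_congr rfl
    intro p _
    by_cases h : (∀ i ∈ p.parts, i ∈ S) ∧ p.parts.card % 3 = a
    · simp only [h]
    · simp only [h, if_false]
  rw [h1, h1, h1, Finset.mul_sum, Finset.mul_sum, ← Finset.sum_add_distrib,
    ← Finset.sum_add_distrib]
  unfold cz
  apply Finset.sum_congr rfl
  intro p _
  by_cases h : ∀ i ∈ p.parts, i ∈ S
  · rw [if_pos h]
    have h2 : z ^ p.parts.card = z ^ (p.parts.card % 3) := by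
      conv_lhs => rw [← Nat.div_add_mod p.parts.card 3, pow_add, pow_mul, hz, one_pow, one_mul]
    have h3 : p.parts.card % 3 < 3 := Nat.mod_lt _ (by norm_num)
    rw [h2]
    have hT : (∀ i ∈ p.parts, i ∈ S) = True := eq_true h
    simp only [hT, true_and]
    interval_cases hk : p.parts.card % 3 <;> simp
  · rw [if_neg h]
    have hF : (∀ i ∈ p.parts, i ∈ S) = False := eq_false h
    simp only [hF, false_and, if_false]
    simp

/-- `D(n) = p(0,3,n) - p(1,3,n)` -/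
noncomputable def D (n : ℕ) : ℝ := (pS Od 0 3 n : ℝ) - pS Od 1 3 n

noncomputable def α : ℂ := (1 - ζ') / 3
noncomputable def α' : ℂ := (1 - ζ) / 3

theorem D_eq (n : ℕ) : (D n : ℂ) = α * cz Od ζ n + α' * cz Od ζ' n := by
  rw [cz_eq Od ζ_cube, cz_eq Od ζ'_cube]
  unfold D α α'
  push_cast
  have h1 : ζ' = -1 - ζ := by rw [← ζ_sq, ζ_quad]
  rw [h1]
  have h2 := ζ_quad
  linear_combination (-(pS Od 1 3 n : ℂ) * (2 / 3) - (pS Od 2 3 n : ℂ) * (1 / 3)) * h2

/-! ### Growth of the generating functions -/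

noncomputable def G (z q : ℂ) : ℂ := ∑' n, cz Od z n * q ^ n

theorem norm_G {z q : ℂ} (hz : ‖z‖ = 1) (hq : ‖q‖ < 1) : ‖G z q‖ = Real.exp (L z q).re := by
  unfold G L
  rw [tsum_cz Od hz.le hq, Complex.norm_exp]

theorem norm_ray {ρ s : ℂ} (hρ : ‖ρ‖ = 1) (x : ℝ) :
    ‖ρ * Complex.exp (-(x * s))‖ = Real.exp (-(x * s.re)) := by
  rw [norm_mul, hρ, one_mul, Complex.norm_exp]; simp

theorem ray_lt {ρ s : ℂ} (hρ : ‖ρ‖ = 1) {x : ℝ} (hx : 0 < x) (hs : 0 < s.re) :
    ‖ρ * Complex.exp (-(x * s))‖ < 1 := by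
  rw [norm_ray hρ, Real.exp_lt_one_iff]
  have := mul_pos hx hs
  linarith

theorem tendsto_re {z ρ s : ℂ} (hz : ‖z‖ = 1) (hρ : ‖ρ‖ = 1) (hs : 0 < s.re) :
    Tendsto (fun x : ℝ => x * (L z (ρ * Complex.exp (-(x * s)))).re) (𝓝[>] 0)
      (𝓝 (Bc z ρ / s).re) := by
  have h1 := (Complex.continuous_re.tendsto _).comp (tendsto_L hz hρ hs)
  refine h1.congr (fun x => ?_)
  simp only [Function.comp_apply]
  rw [Complex.re_ofReal_mul]

theorem upper {z ρ s : ℂ} (hz : z = ζ ∨ z = ζ') (hρ : ‖ρ‖ = 1) (hs : s = 1 ∨ s = dir)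
    (hne : ¬ (z = ζ' ∧ ρ = -1 ∧ s = dir)) :
    ∀ᶠ x : ℝ in 𝓝[>] 0, ‖G z (ρ * Complex.exp (-(x * s)))‖ ≤ Real.exp (0.24 / x) := by
  have hzn : ‖z‖ = 1 := by rcases hz with rfl | rfl; exacts [ζ_norm, ζ'_norm]
  have hsr : 0 < s.re := by rcases hs with rfl | rfl; exacts [by simp, dir_re]
  have h1 := tendsto_re hzn hρ hsr
  have h2 : (Bc z ρ / s).re < 0.24 := by
    have := small_case hz hρ hs hne
    linarith
  filter_upwards [h1.eventually_lt_const h2, self_mem_nhdsWithin] with x hx hx0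
  have hx0' : (0 : ℝ) < x := hx0
  rw [norm_G hzn (ray_lt hρ hx0' hsr)]
  apply Real.exp_le_exp.mpr
  rw [le_div_iff₀ hx0']
  linarith

theorem lower : ∀ᶠ x : ℝ in 𝓝[>] 0,
    Real.exp (0.25 / x) ≤ ‖G ζ' (-1 * Complex.exp (-(x * dir)))‖ := by
  have hρ : ‖(-1 : ℂ)‖ = 1 := by simp
  have h1 := tendsto_re ζ'_norm hρ dir_re
  have h2 : 0.25 < (Bc ζ' (-1) / dir).re := by
    have := main_case
    linarith
  filter_upwards [h1.eventually_const_lt h2, self_mem_nhdsWithin] with x hx hx0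
  have hx0' : (0 : ℝ) < x := hx0
  rw [norm_G ζ'_norm (ray_lt hρ hx0' dir_re)]
  apply Real.exp_le_exp.mpr
  rw [div_le_iff₀ hx0']
  linarith

/-! ### The multisection -/

theorem norm_D_le (n : ℕ) : ‖(D n : ℂ)‖ ≤ 2 * pn n := by
  have hα : ‖α‖ ≤ 1 := by
    unfold α
    rw [norm_div]
    have : ‖(1 : ℂ) - ζ'‖ ≤ 2 := (norm_sub_le _ _).trans (by rw [norm_one, ζ'_norm]; norm_num)
    have h3 : ‖(3 : ℂ)‖ = 3 := by simp
    rw [h3]; linarith
  have hα' : ‖α'‖ ≤ 1 := by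
    unfold α'
    rw [norm_div]
    have : ‖(1 : ℂ) - ζ‖ ≤ 2 := (norm_sub_le _ _).trans (by rw [norm_one, ζ_norm]; norm_num)
    have h3 : ‖(3 : ℂ)‖ = 3 := by simp
    rw [h3]; linarith
  rw [D_eq]
  have h1 := norm_cz_le Od ζ_norm.le n
  have h2 := norm_cz_le Od ζ'_norm.le n
  calc ‖α * cz Od ζ n + α' * cz Od ζ' n‖ ≤ ‖α‖ * ‖cz Od ζ n‖ + ‖α'‖ * ‖cz Od ζ' n‖ := by
        rw [← norm_mul, ← norm_mul]; exact norm_add_le _ _
    _ ≤ 1 * pn n + 1 * pn n := by
        apply add_le_add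
        · exact mul_le_mul hα h1 (norm_nonneg _) zero_le_one
        · exact mul_le_mul hα' h2 (norm_nonneg _) zero_le_one
    _ = 2 * pn n := by ring

theorem norm_α_le : ‖α‖ ≤ 1 := by
  unfold α
  rw [norm_div]
  have : ‖(1 : ℂ) - ζ'‖ ≤ 2 := (norm_sub_le _ _).trans (by rw [norm_one, ζ'_norm]; norm_num)
  have h3 : ‖(3 : ℂ)‖ = 3 := by simp
  rw [h3]; linarith

theorem norm_α'_le : ‖α'‖ ≤ 1 := by
  unfold α'
  rw [norm_div]
  have : ‖(1 : ℂ) - ζ‖ ≤ 2 := (norm_sub_le _ _).trans (by rw [norm_one, ζ_norm]; norm_num)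
  have h3 : ‖(3 : ℂ)‖ = 3 := by simp
  rw [h3]; linarith

theorem norm_α'_ge : 1 / 2 ≤ ‖α'‖ := by
  have h1 := Complex.abs_re_le_norm α'
  have h2 : α'.re = 1 / 2 := by
    unfold α'
    have : ((1 - ζ) / 3 : ℂ) = (((1 / 3 : ℝ)) : ℂ) * (1 - ζ) := by push_cast; ring
    rw [this, Complex.re_ofReal_mul, Complex.sub_re, Complex.one_re]
    simp [ζ]; norm_num
  rw [h2, abs_of_pos (by norm_num)] at h1
  exact h1

theorem summ_D {q : ℂ} (hq : ‖q‖ < 1) : Summable (fun n => (D n : ℂ) * q ^ n) := by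
  apply Summable.of_norm_bounded ((summable_pn (norm_nonneg q) hq).mul_left 2)
  intro n
  rw [norm_mul, norm_pow]
  calc ‖(D n : ℂ)‖ * ‖q‖ ^ n ≤ (2 * pn n) * ‖q‖ ^ n :=
        mul_le_mul_of_nonneg_right (norm_D_le n) (by positivity)
    _ = 2 * (pn n * ‖q‖ ^ n) := by ring

theorem tsum_D {q : ℂ} (hq : ‖q‖ < 1) :
    ∑' n, (D n : ℂ) * q ^ n = α * G ζ q + α' * G ζ' q := by
  unfold G
  have h1 := (summable_cz Od ζ_norm.le hq).of_norm
  have h2 := (summable_cz Od ζ'_norm.le hq).of_norm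
  rw [← tsum_mul_left, ← tsum_mul_left, ← (h1.mul_left α).tsum_add (h2.mul_left α')]
  apply tsum_congr
  intro n
  rw [D_eq]; ring

/-- the part of the series with exponents divisible by `T` -/
noncomputable def Ms (T : ℕ) (q : ℂ) : ℂ := ∑' n, if T ∣ n then (D n : ℂ) * q ^ n else 0

theorem Ms_eq {T : ℕ} (hT : 0 < T) {ω q : ℂ} (hω : IsPrimitiveRoot ω T) (hq : ‖q‖ < 1) :
    (T : ℂ) * Ms T q = ∑ k ∈ Finset.range T, (α * G ζ (ω ^ k * q) + α' * G ζ' (ω ^ k * q)) := by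
  have hωn : ‖ω‖ = 1 := hω.norm'_eq_one hT.ne'
  have hk : ∀ k, ‖ω ^ k * q‖ < 1 := fun k => by
    rw [norm_mul, norm_pow, hωn, one_pow, one_mul]; exact hq
  have h1 : ∑ k ∈ Finset.range T, (α * G ζ (ω ^ k * q) + α' * G ζ' (ω ^ k * q)) =
      ∑ k ∈ Finset.range T, ∑' n, (D n : ℂ) * (ω ^ k * q) ^ n :=
    Finset.sum_congr rfl (fun k _ => (tsum_D (hk k)).symm)
  rw [h1, ← Summable.tsum_finsetSum (fun k _ => summ_D (hk k))]
  unfold Ms
  rw [← tsum_mul_left]
  apply tsum_congr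
  intro n
  have h2 : ∑ k ∈ Finset.range T, (D n : ℂ) * (ω ^ k * q) ^ n =
      (D n : ℂ) * q ^ n * ∑ k ∈ Finset.range T, (ω ^ n) ^ k := by
    rw [Finset.mul_sum]
    apply Finset.sum_congr rfl
    intro k _
    rw [mul_pow, ← pow_mul, ← pow_mul, mul_comm k n]; ring
  rw [h2]
  by_cases hd : T ∣ n
  · rw [if_pos hd, (hω.pow_eq_one_iff_dvd n).mpr hd]
    simp; ring
  · rw [if_neg hd, mul_zero]
    have hne : ω ^ n ≠ 1 := fun h => hd ((hω.pow_eq_one_iff_dvd n).mp h)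
    have h3 : (ω ^ n) ^ T = 1 := by rw [← pow_mul, mul_comm, pow_mul, hω.pow_eq_one, one_pow]
    rw [geom_sum_eq hne, h3, sub_self, zero_div, mul_zero]

theorem sign_bound {T N₀ : ℕ} (ε : ℝ) (hε : ε = 1 ∨ ε = -1)
    (hD : ∀ n, N₀ ≤ n → T ∣ n → |D n| = ε * D n) {q : ℂ} (hq : ‖q‖ < 1) :
    ‖Ms T q‖ ≤ ‖Ms T (‖q‖ : ℂ)‖ + 2 * ∑ n ∈ Finset.range N₀, |D n| := by
  set r := ‖q‖ with hr
  have hr0 : 0 ≤ r := norm_nonneg q
  have hrr : ‖(r : ℂ)‖ < 1 := by rw [Complex.norm_real, Real.norm_of_nonneg hr0]; exact hq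
  set g : ℕ → ℝ := fun n => if T ∣ n then D n * r ^ n else 0 with hg
  have hgb : ∀ n, |g n| ≤ 2 * (pn n * r ^ n) := by
    intro n
    simp only [hg]
    have hp : (0 : ℝ) ≤ pn n := by unfold pn; positivity
    split_ifs
    · rw [abs_mul, abs_of_nonneg (pow_nonneg hr0 n)]
      have h1 := norm_D_le n
      rw [Complex.norm_real, Real.norm_eq_abs] at h1
      calc |D n| * r ^ n ≤ (2 * pn n) * r ^ n :=
            mul_le_mul_of_nonneg_right h1 (by positivity)
        _ = 2 * (pn n * r ^ n) := by ring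
    · rw [abs_zero]; positivity
  have hs2 : Summable (fun n => 2 * (pn n * r ^ n)) := (summable_pn hr0 hq).mul_left 2
  have hgs : Summable g := Summable.of_norm_bounded hs2 (fun n => by
    rw [Real.norm_eq_abs]; exact hgb n)
  have hgabs : Summable (fun n => |g n|) := hgs.abs
  have h1 : ‖Ms T q‖ ≤ ∑' n, |g n| := by
    unfold Ms
    apply tsum_of_norm_bounded hgabs.hasSum
    intro n
    simp only [hg]
    split_ifs
    · rw [norm_mul, norm_pow, Complex.norm_real, Real.norm_eq_abs, abs_mul,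
        abs_of_nonneg (pow_nonneg hr0 n)]
    · simp
  have h2 : Ms T (r : ℂ) = ((∑' n, g n : ℝ) : ℂ) := by
    unfold Ms
    rw [Complex.ofReal_tsum]
    apply tsum_congr
    intro n
    simp only [hg]
    split_ifs
    · push_cast; rfl
    · simp
  have h3 : ‖Ms T (r : ℂ)‖ = |∑' n, g n| := by rw [h2, Complex.norm_real, Real.norm_eq_abs]
  have h4 := hgabs.sum_add_tsum_nat_add N₀
  have h5 := hgs.sum_add_tsum_nat_add N₀
  have h6 : ∑' i, |g (i + N₀)| = ε * ∑' i, g (i + N₀) := by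
    rw [← tsum_mul_left]
    apply tsum_congr
    intro i
    simp only [hg]
    split_ifs with hd
    · rw [abs_mul, hD _ (by omega) hd, abs_of_nonneg (pow_nonneg hr0 _)]; ring
    · simp
  have h7 : ∑ i ∈ Finset.range N₀, |g i| ≤ ∑ n ∈ Finset.range N₀, |D n| := by
    apply Finset.sum_le_sum
    intro n _
    simp only [hg]
    split_ifs
    · rw [abs_mul, abs_of_nonneg (pow_nonneg hr0 n)]
      have : r ^ n ≤ 1 := pow_le_one₀ hr0 hq.le
      calc |D n| * r ^ n ≤ |D n| * 1 := mul_le_mul_of_nonneg_left this (abs_nonneg _)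
        _ = |D n| := mul_one _
    · simp
  have h8 : |∑ i ∈ Finset.range N₀, g i| ≤ ∑ i ∈ Finset.range N₀, |g i| :=
    Finset.abs_sum_le_sum_abs _ _
  have h9 : ε * ∑' i, g (i + N₀) ≤ |∑' n, g n| + |∑ i ∈ Finset.range N₀, g i| := by
    have e1 : ∑' i, g (i + N₀) = ∑' n, g n - ∑ i ∈ Finset.range N₀, g i := by linarith
    rw [e1]
    have a1 := le_abs_self (∑' n, g n)
    have a2 := neg_abs_le (∑' n, g n)
    have a3 := le_abs_self (∑ i ∈ Finset.range N₀, g i)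
    have a4 := neg_abs_le (∑ i ∈ Finset.range N₀, g i)
    rcases hε with rfl | rfl
    · linarith
    · linarith
  rw [h3]
  linarith

theorem no_sign {T₁ : ℕ} (hT₁ : 0 < T₁) {N₀ : ℕ} (ε : ℝ) (hε : ε = 1 ∨ ε = -1)
    (hD : ∀ n, N₀ ≤ n → (2 * T₁) ∣ n → |D n| = ε * D n) : False := by
  set T := 2 * T₁ with hT
  have hT0 : 0 < T := by omega
  obtain ⟨ω, hω⟩ : ∃ ω : ℂ, IsPrimitiveRoot ω T := ⟨_, Complex.isPrimitiveRoot_exp T hT0.ne'⟩
  have hωn : ‖ω‖ = 1 := hω.norm'_eq_one hT0.ne'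
  have hωk : ∀ k, ‖ω ^ k‖ = 1 := fun k => by rw [norm_pow, hωn, one_pow]
  have hω1 : ω ^ T₁ = -1 := by
    have h1 : ω ^ T₁ * ω ^ T₁ = 1 := by
      rw [← pow_add, show T₁ + T₁ = T by omega]; exact hω.pow_eq_one
    rcases mul_eq_zero.mp (show (ω ^ T₁ - 1) * (ω ^ T₁ + 1) = 0 by linear_combination h1) with h | h
    · exact absurd (by linear_combination h : ω ^ T₁ = 1)
        (hω.pow_ne_one_of_pos_of_lt (by omega) (by omega))
    · linear_combination h
  set C : ℝ := ∑ n ∈ Finset.range N₀, |D n| with hC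
  have hC0 : 0 ≤ C := Finset.sum_nonneg (fun _ _ => abs_nonneg _)
  have ev1 : ∀ᶠ x : ℝ in 𝓝[>] 0, ∀ k ∈ Finset.range T,
      ‖G ζ (ω ^ k * Complex.exp (-(x * dir)))‖ ≤ Real.exp (0.24 / x) := by
    rw [Filter.eventually_all_finset]
    intro k _
    refine upper (Or.inl rfl) (hωk k) (Or.inr rfl) ?_
    rintro ⟨h, _⟩
    have := congrArg Complex.im h
    simp only [ζ, ζ'] at this
    have h2 := h_lo
    linarith
  have ev2 : ∀ᶠ x : ℝ in 𝓝[>] 0, ∀ k ∈ (Finset.range T).erase T₁,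
      ‖G ζ' (ω ^ k * Complex.exp (-(x * dir)))‖ ≤ Real.exp (0.24 / x) := by
    rw [Filter.eventually_all_finset]
    intro k hk
    refine upper (Or.inr rfl) (hωk k) (Or.inr rfl) ?_
    rintro ⟨_, h, _⟩
    rw [Finset.mem_erase, Finset.mem_range] at hk
    rw [← hω1] at h
    exact hk.1 (hω.pow_inj hk.2 (by omega) h)
  have hd1 : (1 : ℂ) ≠ dir := by
    intro h; have := congrArg Complex.im h; simp [dir] at this
  have ev3 : ∀ᶠ x : ℝ in 𝓝[>] 0, ∀ k ∈ Finset.range T,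
      ‖G ζ (ω ^ k * Complex.exp (-(x * 1)))‖ ≤ Real.exp (0.24 / x) := by
    rw [Filter.eventually_all_finset]
    intro k _
    exact upper (Or.inl rfl) (hωk k) (Or.inl rfl) (fun h => hd1 h.2.2)
  have ev4 : ∀ᶠ x : ℝ in 𝓝[>] 0, ∀ k ∈ Finset.range T,
      ‖G ζ' (ω ^ k * Complex.exp (-(x * 1)))‖ ≤ Real.exp (0.24 / x) := by
    rw [Filter.eventually_all_finset]
    intro k _
    exact upper (Or.inr rfl) (hωk k) (Or.inl rfl) (fun h => hd1 h.2.2)
  have ev5 : ∀ᶠ x : ℝ in 𝓝[>] 0, 8 * (T : ℝ) + 4 * T * C < Real.exp (0.01 / x) := by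
    have h1 : Tendsto (fun x : ℝ => Real.exp (0.01 * x⁻¹)) (𝓝[>] 0) atTop :=
      Real.tendsto_exp_atTop.comp
        (Filter.Tendsto.const_mul_atTop (by norm_num : (0 : ℝ) < 0.01) tendsto_inv_nhdsGT_zero)
    filter_upwards [h1.eventually_gt_atTop (8 * (T : ℝ) + 4 * T * C)] with x hx
    rw [div_eq_mul_inv]; exact hx
  obtain ⟨x, h1, h2, h3, h4, h5, h6, hx0⟩ :=
    (ev1.and (ev2.and (ev3.and (ev4.and (ev5.and (lower.and self_mem_nhdsWithin)))))).exists
  have hx : (0 : ℝ) < x := hx0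
  set E := Real.exp (0.24 / x) with hE
  have hE1 : 1 ≤ E := Real.one_le_exp (by positivity)
  set q : ℂ := Complex.exp (-(x * dir)) with hq
  have hqn : ‖q‖ = Real.exp (-x) := by
    have := norm_ray (ρ := 1) (s := dir) (by simp) x
    rw [one_mul] at this
    rw [hq, this]; simp [dir]
  have hqlt : ‖q‖ < 1 := by rw [hqn, Real.exp_lt_one_iff]; linarith
  have hqr : (‖q‖ : ℂ) = Complex.exp (-(x * 1)) := by
    rw [hqn]; push_cast; rw [mul_one]
  have hrlt : ‖(‖q‖ : ℂ)‖ < 1 := by rw [Complex.norm_real, norm_norm]; exact hqlt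
  -- lower bound
  have hT₁mem : T₁ ∈ Finset.range T := Finset.mem_range.mpr (by omega)
  have e1 := Ms_eq hT0 hω hqlt
  rw [Finset.sum_add_distrib, ← Finset.add_sum_erase _ (fun k => α' * G ζ' (ω ^ k * q)) hT₁mem,
    hω1] at e1
  have b1 : ‖∑ k ∈ Finset.range T, α * G ζ (ω ^ k * q)‖ ≤ T * E := by
    refine (norm_sum_le _ _).trans ?_
    refine (Finset.sum_le_card_nsmul _ _ E (fun k hk => ?_)).trans ?_
    · rw [norm_mul]
      calc ‖α‖ * ‖G ζ (ω ^ k * q)‖ ≤ 1 * E := mul_le_mul norm_α_le (h1 k hk) (norm_nonneg _) zero_le_one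
        _ = E := one_mul E
    · rw [Finset.card_range, nsmul_eq_mul]
  have b2 : ‖∑ k ∈ (Finset.range T).erase T₁, α' * G ζ' (ω ^ k * q)‖ ≤ T * E := by
    refine (norm_sum_le _ _).trans ?_
    refine (Finset.sum_le_card_nsmul _ _ E (fun k hk => ?_)).trans ?_
    · rw [norm_mul]
      calc ‖α'‖ * ‖G ζ' (ω ^ k * q)‖ ≤ 1 * E :=
            mul_le_mul norm_α'_le (h2 k hk) (norm_nonneg _) zero_le_one
        _ = E := one_mul E
    · rw [nsmul_eq_mul]
      apply mul_le_mul_of_nonneg_right _ (by linarith)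
      have : ((Finset.range T).erase T₁).card ≤ T := by
        refine (Finset.card_erase_le).trans ?_
        rw [Finset.card_range]
      exact_mod_cast this
  have b3 : (1 / 2) * Real.exp (0.25 / x) ≤ ‖α' * G ζ' (-1 * q)‖ := by
    rw [norm_mul]
    exact mul_le_mul norm_α'_ge h6 (Real.exp_pos _).le (norm_nonneg _)
  have b4 : (1 / 2) * Real.exp (0.25 / x) ≤ T * ‖Ms T q‖ + 2 * T * E := by
    have e2 : α' * G ζ' (-1 * q) = (T : ℂ) * Ms T q -
        (∑ k ∈ Finset.range T, α * G ζ (ω ^ k * q)) -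
        ∑ k ∈ (Finset.range T).erase T₁, α' * G ζ' (ω ^ k * q) := by
      rw [e1]; ring
    have e3 : ‖(T : ℂ) * Ms T q‖ = T * ‖Ms T q‖ := by
      rw [norm_mul, Complex.norm_natCast]
    have e4 : ‖α' * G ζ' (-1 * q)‖ ≤ T * ‖Ms T q‖ + T * E + T * E := by
      rw [e2]
      calc _ ≤ ‖(T : ℂ) * Ms T q - (∑ k ∈ Finset.range T, α * G ζ (ω ^ k * q))‖ +
            ‖∑ k ∈ (Finset.range T).erase T₁, α' * G ζ' (ω ^ k * q)‖ := norm_sub_le _ _
        _ ≤ (‖(T : ℂ) * Ms T q‖ + ‖∑ k ∈ Finset.range T, α * G ζ (ω ^ k * q)‖) + T * E :=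
            add_le_add (norm_sub_le _ _) b2
        _ ≤ T * ‖Ms T q‖ + T * E + T * E := by rw [e3]; linarith
    linarith
  -- upper bound
  have b5 : (T : ℝ) * ‖Ms T (‖q‖ : ℂ)‖ ≤ 2 * T * E := by
    have e2 := Ms_eq hT0 hω hrlt
    have e3 : ‖(T : ℂ) * Ms T (‖q‖ : ℂ)‖ = T * ‖Ms T (‖q‖ : ℂ)‖ := by
      rw [norm_mul, Complex.norm_natCast]
    rw [← e3, e2]
    refine (norm_sum_le _ _).trans ?_
    refine (Finset.sum_le_card_nsmul _ _ (2 * E) (fun k hk => ?_)).trans ?_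
    · rw [hqr]
      calc _ ≤ ‖α * G ζ (ω ^ k * Complex.exp (-(x * 1)))‖ +
            ‖α' * G ζ' (ω ^ k * Complex.exp (-(x * 1)))‖ := norm_add_le _ _
        _ ≤ 1 * E + 1 * E := by
            rw [norm_mul, norm_mul]
            exact add_le_add (mul_le_mul norm_α_le (h3 k hk) (norm_nonneg _) zero_le_one)
              (mul_le_mul norm_α'_le (h4 k hk) (norm_nonneg _) zero_le_one)
        _ = 2 * E := by ring
    · rw [Finset.card_range, nsmul_eq_mul]
      linarith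
  have b6 := sign_bound ε hε hD hqlt
  have hTr : (0 : ℝ) < T := by exact_mod_cast hT0
  have b7 : (T : ℝ) * ‖Ms T q‖ ≤ 2 * T * E + 2 * T * C := by
    have := mul_le_mul_of_nonneg_left b6 hTr.le
    linarith
  have e5 : Real.exp (0.25 / x) = E * Real.exp (0.01 / x) := by
    rw [hE, ← Real.exp_add]; congr 1; ring
  rw [e5] at b4
  have b8 : E * (8 * (T : ℝ) + 4 * T * C) < E * Real.exp (0.01 / x) :=
    mul_lt_mul_of_pos_left h5 (by linarith)
  have b9 : 4 * (T : ℝ) * C * 1 ≤ 4 * T * C * E :=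
    mul_le_mul_of_nonneg_left hE1 (by positivity)
  linarith

/-! ### The ordering -/

theorem before_total (S : Set ℕ) (m n a b : ℕ) : before S m n a b ∨ before S m n b a := by
  unfold before
  rcases lt_trichotomy (pS S a m n) (pS S b m n) with h | h | h
  · right; left; exact h
  · rcases le_total a b with h2 | h2
    · left; right; exact ⟨h, h2⟩
    · right; right; exact ⟨h.symm, h2⟩
  · left; left; exact h

theorem before_trans (S : Set ℕ) (m n : ℕ) {a b c : ℕ} (h1 : before S m n a b)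
    (h2 : before S m n b c) : before S m n a c := by
  unfold before at *
  rcases h1 with h1 | ⟨h1, h1'⟩ <;> rcases h2 with h2 | ⟨h2, h2'⟩
  · left; omega
  · left; omega
  · left; omega
  · right; exact ⟨h1.trans h2, h1'.trans h2'⟩

theorem u_sorted (S : Set ℕ) (m n : ℕ) : (u S m n).Pairwise (before S m n) := by
  classical
  unfold u
  have : Std.Total (before S m n) := ⟨before_total S m n⟩
  have : IsTrans ℕ (before S m n) := ⟨fun _ _ _ => before_trans S m n⟩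
  exact List.pairwise_insertionSort _ _

theorem u_perm (S : Set ℕ) (n : ℕ) : (u S 3 n).Perm [0, 1, 2] := by
  classical
  unfold u
  exact List.perm_insertionSort _ _

theorem u_cases (S : Set ℕ) (n : ℕ) :
    List.Sublist [0, 1] (u S 3 n) ∨ List.Sublist [1, 0] (u S 3 n) := by
  have h0 : 0 ∈ u S 3 n := (u_perm S n).mem_iff.mpr (by simp)
  have h1 : 1 ∈ u S 3 n := (u_perm S n).mem_iff.mpr (by simp)
  obtain ⟨s, t, hst⟩ := List.append_of_mem h0
  rw [hst] at h1 ⊢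
  rw [List.mem_append, List.mem_cons] at h1
  rcases h1 with h1 | h1 | h1
  · right
    exact (List.singleton_sublist.mpr h1).append
      ((List.nil_sublist t).cons_cons 0)
  · exact absurd h1 (by norm_num)
  · left
    have h2 : List.Sublist [0, 1] (0 :: t) := (List.singleton_sublist.mpr h1).cons_cons 0
    exact h2.trans (List.sublist_append_right s _)

theorem D_nonneg {n : ℕ} (h : List.Sublist [0, 1] (u Od 3 n)) : 0 ≤ D n := by
  have h1 := (List.pairwise_iff_forall_sublist.mp (u_sorted Od 3 n)) h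
  unfold D
  rcases h1 with h1 | ⟨h1, _⟩
  · have : (pS Od 1 3 n : ℝ) < pS Od 0 3 n := by exact_mod_cast h1
    linarith
  · rw [h1]; simp

theorem D_nonpos {n : ℕ} (h : List.Sublist [1, 0] (u Od 3 n)) : D n ≤ 0 := by
  have h1 := (List.pairwise_iff_forall_sublist.mp (u_sorted Od 3 n)) h
  unfold D
  rcases h1 with h1 | ⟨_, h2⟩
  · have : (pS Od 0 3 n : ℝ) < pS Od 1 3 n := by exact_mod_cast h1
    linarith
  · omega

theorem not_periodic : ¬ EventuallyPeriodic Od 3 := by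
  rintro ⟨T, N, hT, hper⟩
  have h1 : ∀ m n, N ≤ n → u Od 3 (n + m * T) = u Od 3 n := by
    intro m
    induction m with
    | zero => intro n _; simp
    | succ m ih =>
      intro n hn
      have : n + (m + 1) * T = (n + m * T) + T := by ring
      rw [this, hper _ (by omega), ih n hn]
  -- all `u n` with `n ≥ N`, `2T ∣ n` agree
  set n₀ := 2 * T * N with hn₀
  have hn₀N : N ≤ n₀ := by rw [hn₀]; nlinarith
  have h2 : ∀ n, n₀ ≤ n → 2 * T ∣ n → u Od 3 n = u Od 3 n₀ := by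
    rintro n hn ⟨c, rfl⟩
    have hc : N ≤ c := by
      rw [hn₀] at hn
      exact Nat.le_of_mul_le_mul_left hn (by omega)
    obtain ⟨e, rfl⟩ := Nat.exists_eq_add_of_le hc
    have : 2 * T * (N + e) = n₀ + (2 * e) * T := by rw [hn₀]; ring
    rw [this]
    exact h1 _ _ hn₀N
  rcases u_cases Od n₀ with h3 | h3
  · refine no_sign (T₁ := T) (by omega) (N₀ := n₀) 1 (Or.inl rfl) ?_
    intro n hn hd
    have : 0 ≤ D n := D_nonneg (by rw [h2 n hn hd]; exact h3)
    rw [abs_of_nonneg this, one_mul]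
  · refine no_sign (T₁ := T) (by omega) (N₀ := n₀) (-1) (Or.inr rfl) ?_
    intro n hn hd
    have : D n ≤ 0 := D_nonpos (by rw [h2 n hn hd]; exact h3)
    rw [abs_of_nonpos this]; ring

/-- For some `f` in the class `𝓕` (namely `f(n) = 2n - 1`, `S_f` = the odd positive integers) the
permutations `u_n` with `m = 3` are not eventually periodic. -/
theorem result : ∃ f : Polynomial ℚ, InF f ∧ (∀ n : ℕ, 1 ≤ n → 0 < f.eval (n : ℚ)) ∧
    ¬ EventuallyPeriodic (Sf f) 3 := by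
  have hev : ∀ y : ℚ, (2 * Polynomial.X - 1 : Polynomial ℚ).eval y = 2 * y - 1 := by
    intro y; simp
  refine ⟨2 * Polynomial.X - 1, ⟨?_, ?_, ?_⟩, ?_, ?_⟩
  · intro n
    refine ⟨2 * n - 1, ?_⟩
    rw [hev]; push_cast; ring
  · refine ⟨1, fun n hn => ?_⟩
    rw [hev, hev]
    have : (1 : ℚ) ≤ n := by exact_mod_cast hn
    push_cast
    constructor <;> linarith
  · intro p hp
    refine ⟨1, 1, ?_, ?_⟩
    · rw [hev]; norm_num
    · intro h
      have h1 : (p : ℤ) ≤ 1 := Int.le_of_dvd (by norm_num) h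
      have h2 := hp.two_le
      omega
  · intro n hn
    rw [hev]
    have : (1 : ℚ) ≤ n := by exact_mod_cast hn
    linarith
  · have hS : Sf (2 * Polynomial.X - 1) = Od := by
      ext s
      constructor
      · rintro ⟨n, hn, h⟩
        rw [hev] at h
        have h2 : s + 1 = 2 * n := by
          have : ((s + 1 : ℕ) : ℚ) = ((2 * n : ℕ) : ℚ) := by push_cast; linarith
          exact_mod_cast this
        exact ⟨n - 1, by omega⟩
      · rintro ⟨k, hk⟩
        refine ⟨k + 1, by omega, ?_⟩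
        rw [hev, hk]; push_cast; ring
    rw [hS]
    exact not_periodic

end Pool.Agent.Results.MP_fabcd1_nt.NotEventuallyPeriodic
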